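import Pool.Agent.Lib_MP_264ef2_ins.Comb

set_option autoImplicit false

/-! The giant rigid component of the sparse random graph, in the words of the problem file. -/

namespace Pool.Agent.Results.MP_264ef2_co.GiantRigid

open Pool.Agent.RigidINS

/-- Let `d ≥ 2` and let `cd` be the sharp threshold for `d`-orientability of `G(n, c/n)`.
(a) If `0 < c < cd`, then a.a.s. every `d`-rigid component of `G(n, c/n)` has at most `3` vertices.
(b) If `c > cd`, then for some `ε > 0`, a.a.s. `G(n, c/n)` has exactly one `((d+1)+d)`-core `B`, this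
`B` is a `d`-rigid component with at least `ε n` vertices, and every other `d`-rigid component has
fewer than `5 d` vertices. -/
theorem result (d : ℕ) (hd : 2 ≤ d) (cd : ℝ) (hcd : IsThreshold d cd) :
    (∀ c : ℝ, 0 < c → c < cd →
      AAS c (fun n G => ∀ A : Finset (Fin n), IsRigidComponent d G A → A.card ≤ 3)) ∧
    (∀ c : ℝ, cd < c → ∃ ε : ℝ, 0 < ε ∧
      AAS c (fun n G => ∃ B : Finset (Fin n),
        (IsHatCore d G B ∧ ∀ B' : Finset (Fin n), IsHatCore d G B' → B' = B) ∧
        IsRigidComponent d G B ∧ ε * n ≤ B.card ∧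
        ∀ A : Finset (Fin n), IsRigidComponent d G A → A ≠ B → A.card < 5 * d)) := by
  obtain ⟨hpos, hlow, hup⟩ := hcd
  refine ⟨fun c hc hccd => ?_, fun c hccd => ?_⟩
  · refine AAS_of_small c hc _ ?_
    have h1 := small_of_AAS ((c + cd) / 2) (by linarith) _
      (hlow ((c + cd) / 2) (by linarith) (by linarith))
    simp only [orientable_iff] at h1
    simp only [component_iff]
    exact Pool.Agent.GRI.sub d hd c ((c + cd) / 2) hc (by linarith) h1
  · have hcpos : 0 < c := hpos.trans hccd
    have h1 := small_of_AAS ((c + cd) / 2) (by linarith) _ (hup ((c + cd) / 2) (by linarith))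
    simp only [not_not, orientable_iff] at h1
    obtain ⟨β, hβ, hb⟩ := Pool.Agent.GRI.super d hd ((c + cd) / 2) c (by linarith) (by linarith) h1
    refine ⟨β, hβ, AAS_of_small c hcpos _ (fun η hη => ?_)⟩
    obtain ⟨N1, h2⟩ := hb η hη
    obtain ⟨N2, h3⟩ := Pool.Agent.GRI.exists_nat_gt_of c
    refine ⟨N1 + N2, fun n hn => ?_⟩
    obtain ⟨p0, p1⟩ := Pool.Agent.GRI.p_bounds hcpos (h3 n (by omega))
    refine le_trans (Pool.Agent.GRI.Pr_mono p0 p1 ?_) (h2 n (by omega))
    intro A hA hgood
    apply hA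
    obtain ⟨⟨hcomp, hother⟩, hsize⟩ := hgood
    refine ⟨Pool.Agent.GRI.Hat d (Pool.Agent.GRI.gr A), ⟨(isHatCore_iff _ _ _).2 rfl,
      fun B' hB' => (isHatCore_iff _ _ _).1 hB'⟩, (component_iff _ _ _).2 hcomp, hsize, ?_⟩
    intro S hS hne
    exact hother S ((component_iff _ _ _).1 hS) hne

end Pool.Agent.Results.MP_264ef2_co.GiantRigid
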